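import Pool.Agent.Q260.OE.Stm5
import Pool.Agent.Q193.OE.STR
import Pool.Agent.Q123.OE.Tri

set_option autoImplicit false

/-!
# Project OE, job PAI: the scalar product of the error and the prime error
-/

namespace Pool.Agent.Q149.OE

open Complex MeasureTheory Filter Topology Set
open Pool.Agent.Q286.BD (cl mz difR JR Km S_TR S_intR S_sum2)
open Pool.Agent.Q210.BD (JR_inv pairK)
open Pool.Agent.Q193.OE (meas_dif)
open Pool.Agent.Q260.GM (ph)
open Pool.Agent.Q260.OE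
open Pool.Agent.Q123.OE (mlp mlp_c isq ph_bound ph_meas De_meas De_bound ZS_cont cl_ne)

theorem prod_le {t : ℝ} (ht : 0 < t) (x y : ℝ) : x * y ≤ t / 2 * x ^ 2 + 1 / (2 * t) * y ^ 2 := by
  have h : 0 ≤ (t * x - y) ^ 2 / (2 * t) := by positivity
  have e : (t * x - y) ^ 2 / (2 * t) = t / 2 * x ^ 2 - x * y + 1 / (2 * t) * y ^ 2 := by
    field_simp
    ring
  rw [e] at h
  linarith

/-- the substitution `y = e^w` for complex functions -/
theorem exp_intC (f : ℝ → ℂ) :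
    ∫ x in Ioi (0 : ℝ), f x = ∫ u : ℝ, ((Real.exp u : ℝ) : ℂ) * f (Real.exp u) := by
  have hd : ∀ u ∈ (univ : Set ℝ), HasDerivWithinAt Real.exp (Real.exp u) univ u :=
    fun u _ => (Real.hasDerivAt_exp u).hasDerivWithinAt
  have hinj : InjOn Real.exp univ := Real.exp_injective.injOn
  have him : Real.exp '' univ = Ioi 0 := by
    rw [image_univ, Real.range_exp]
  have hab : ∀ u : ℝ, |Real.exp u| = Real.exp u := fun u => abs_of_pos (Real.exp_pos _)
  have h := integral_image_eq_integral_abs_deriv_smul MeasurableSet.univ hd hinj f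
  rw [him, setIntegral_univ] at h
  rw [h]
  simp only [hab, Complex.real_smul]

theorem Km_meas (g : ℝ) (p : Polynomial ℝ) (L : ℝ) : Measurable (Km g p L) := by
  unfold Km
  refine Measurable.ite (measurableSet_Icc (a := (1 : ℝ)) (b := Real.exp L)) ?_ measurable_const
  refine Measurable.mul (Complex.measurable_ofReal.pow_const _) ?_
  exact Complex.measurable_ofReal.comp (p.continuous.measurable.comp (Real.measurable_log.div_const _))

/-- the pairing of the error with the main part of a test function -/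
theorem pairKm (h3 : S_intR) (a : ℝ →₀ ℝ) (ha : ∀ θ ∈ a.support, 0 < θ ∧ θ ≤ 1) {K km : ℝ → ℂ}
    (hKm : Measurable K) (hkm : Measurable km) (hK : IntegrableOn K (Ioi 0))
    (ho : ∀ θ ∈ a.support, ∫ y in Ioi (0 : ℝ), ((Int.fract (θ * y) : ℝ) : ℂ) * K y = 0)
    (hE : IntegrableOn (fun y : ℝ => ‖K y - km y‖ ^ 2 * y ^ 2) (Ioi 0)) {t : ℝ} (ht : 0 < t) :
    ‖(∫ y in Ioi (0 : ℝ), ((difR a (1 / y) : ℝ) : ℂ) * km y) - ∫ y in Ioi (1 : ℝ), K y‖ ≤
      t / 2 * JR a + 1 / (2 * t) * ∫ y in Ioi (0 : ℝ), ‖K y - km y‖ ^ 2 * y ^ 2 := by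
  obtain ⟨i1, i2⟩ := JR_inv h3 a ha
  obtain ⟨p1, p2⟩ := pairK a hK ho
  have hb : ∀ y ∈ Ioi (0 : ℝ), ‖((difR a (1 / y) : ℝ) : ℂ) * (K y - km y)‖ ≤
      t / 2 * (difR a (1 / y) / y) ^ 2 + 1 / (2 * t) * (‖K y - km y‖ ^ 2 * y ^ 2) := by
    intro y hy
    have hy0 : (0 : ℝ) < y := hy
    rw [norm_mul, Complex.norm_real, Real.norm_eq_abs]
    have h := prod_le ht (|difR a (1 / y)| / y) (‖K y - km y‖ * y)
    have e1 : |difR a (1 / y)| / y * (‖K y - km y‖ * y) = |difR a (1 / y)| * ‖K y - km y‖ := by field_simp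
    have e2 : (|difR a (1 / y)| / y) ^ 2 = (difR a (1 / y) / y) ^ 2 := by rw [div_pow, div_pow, sq_abs]
    rw [e1, e2, mul_pow] at h
    exact h
  have j1 : IntegrableOn (fun y : ℝ => t / 2 * (difR a (1 / y) / y) ^ 2 +
      1 / (2 * t) * (‖K y - km y‖ ^ 2 * y ^ 2)) (Ioi 0) := (i1.const_mul _).add (hE.const_mul _)
  have hb' := (ae_restrict_mem (μ := (volume : Measure ℝ)) (measurableSet_Ioi (a := (0 : ℝ)))).mono fun y hy => hb y hy
  have j2 : IntegrableOn (fun y : ℝ => ((difR a (1 / y) : ℝ) : ℂ) * (K y - km y)) (Ioi 0) := by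
    refine Integrable.mono' j1 ?_ hb'
    exact ((Complex.measurable_ofReal.comp ((meas_dif a).comp (measurable_const.div measurable_id))).mul
      (hKm.sub hkm)).aestronglyMeasurable
  have e : ∫ y in Ioi (0 : ℝ), ((difR a (1 / y) : ℝ) : ℂ) * km y =
      (∫ y in Ioi (1 : ℝ), K y) - ∫ y in Ioi (0 : ℝ), ((difR a (1 / y) : ℝ) : ℂ) * (K y - km y) := by
    rw [← p2, ← integral_sub p1 j2]
    refine integral_congr_ae (ae_of_all _ fun y => ?_)
    show ((difR a (1 / y) : ℝ) : ℂ) * km y = ((difR a (1 / y) : ℝ) : ℂ) * K y - ((difR a (1 / y) : ℝ) : ℂ) * (K y - km y)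
    ring
  rw [e, sub_sub_cancel_left, norm_neg]
  refine (norm_integral_le_of_norm_le j1 hb').trans (le_of_eq ?_)
  rw [integral_add (i1.const_mul _) (hE.const_mul _), integral_const_mul, integral_const_mul, i2]

/-- the main part in the variable `w` -/
theorem main_w (a : ℝ →₀ ℝ) {L : ℝ} (hL : 0 ≤ L) (g : ℝ) :
    ∫ y in Ioi (0 : ℝ), ((difR a (1 / y) : ℝ) : ℂ) * Km g 1 L y =
      ∫ w in (0 : ℝ)..L, (De a w : ℂ) * cexp (-(w * cl g)) := by
  rw [exp_intC]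
  have e : (fun u : ℝ => ((Real.exp u : ℝ) : ℂ) * (((difR a (1 / Real.exp u) : ℝ) : ℂ) * Km g 1 L (Real.exp u))) =
      indicator (Icc 0 L) (fun w : ℝ => (De a w : ℂ) * cexp (-(w * cl g))) := by
    funext u
    have h4 : De a u = difR a (1 / Real.exp u) := by
      unfold De
      rw [Real.exp_neg, one_div]
    by_cases hu : u ∈ Icc 0 L
    · rw [indicator_of_mem hu]
      unfold Km
      rw [if_pos ⟨Real.one_le_exp hu.1, Real.exp_le_exp.2 hu.2⟩, ← h4]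
      have h6 : ((Real.exp u : ℝ) : ℂ) ≠ 0 := by exact_mod_cast (Real.exp_pos u).ne'
      have h7 : ((Real.exp u : ℝ) : ℂ) ^ (-cl g - 1) = cexp (-(u * cl g)) / ((Real.exp u : ℝ) : ℂ) := by
        rw [Complex.cpow_def_of_ne_zero h6, ← Complex.ofReal_log (Real.exp_pos u).le, Real.log_exp,
          Complex.ofReal_exp, ← Complex.exp_sub]
        congr 1
        ring
      rw [h7]
      simp only [Polynomial.eval_one, Complex.ofReal_one, mul_one]
      field_simp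
    · rw [indicator_of_notMem hu]
      unfold Km
      rw [if_neg, mul_zero, mul_zero]
      rintro ⟨h1, h2⟩
      have h8 := Real.log_nonneg h1
      rw [Real.log_exp] at h8
      exact hu ⟨h8, Real.exp_le_exp.1 h2⟩
  rw [e, integral_indicator measurableSet_Icc, integral_Icc_eq_integral_Ioc, ← intervalIntegral.integral_of_le hL]

/-- the pairing with one zero -/
theorem pair_lim (h1 : S_TR) (h3 : S_intR) {Lf : ℕ → ℝ} {af : ℕ → (ℝ →₀ ℝ)} (hF : Good Lf af) {g : ℝ}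
    (hg : riemannZeta (cl g) = 0) (hm : 0 < mz (cl g)) :
    Tendsto (fun j => ∫ w in (0 : ℝ)..(Lf j), (De (af j) w : ℂ) * cexp (-(w * cl g))) atTop (𝓝 (1 / cl g)) := by
  obtain ⟨C, hC, hT⟩ := h1 g 1 hg (by rw [Polynomial.degree_one]; exact_mod_cast hm)
  obtain ⟨C0, hC0⟩ := hF.bdd
  rw [tendsto_iff_norm_sub_tendsto_zero]
  have hlim : Tendsto (fun j => C / Lf j + (C0 + C) / 2 * (1 / √(Lf j))) atTop (𝓝 0) := by
    have a1 : Tendsto (fun j => C / Lf j) atTop (𝓝 0) := hF.tend.const_div_atTop C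
    have a2 : Tendsto (fun j => 1 / √(Lf j)) atTop (𝓝 0) := (Real.tendsto_sqrt_atTop.comp hF.tend).const_div_atTop 1
    have a3 := a1.add (a2.const_mul ((C0 + C) / 2))
    simpa using a3
  refine squeeze_zero' (Eventually.of_forall fun j => norm_nonneg _) ?_ hlim
  filter_upwards [hF.tend.eventually_ge_atTop 1] with j hj
  obtain ⟨K, k1, k2, k3, k4, k5, k6⟩ := hT (Lf j) hj
  have hLp : 0 < Lf j := by linarith
  have hs : 0 < √(Lf j) := Real.sqrt_pos.2 hLp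
  have hs2 : √(Lf j) * √(Lf j) = Lf j := Real.mul_self_sqrt hLp.le
  have ha' : ∀ θ ∈ (af j).support, 0 < θ ∧ θ ≤ 1 :=
    fun θ hθ => ⟨lt_of_lt_of_le (Real.exp_pos _) (hF.supp j θ hθ).1, (hF.supp j θ hθ).2⟩
  have m := pairKm h3 (af j) ha' k1 (Km_meas g 1 (Lf j)) k2
    (fun θ hθ => k3 θ (hF.supp j θ hθ).1 (hF.supp j θ hθ).2) k5 hs
  rw [main_w (af j) hLp.le g] at m
  rw [Polynomial.eval_one, Complex.ofReal_one] at k4
  obtain ⟨X, hX⟩ : ∃ X : ℂ, X = ∫ w in (0 : ℝ)..(Lf j), (De (af j) w : ℂ) * cexp (-(w * cl g)) := ⟨_, rfl⟩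
  obtain ⟨Y, hY⟩ : ∃ Y : ℂ, Y = ∫ y in Ioi (1 : ℝ), K y := ⟨_, rfl⟩
  rw [← hX] at m ⊢
  rw [← hY] at m k4
  have e1 : X - 1 / cl g = (X - Y) + (Y - 1 / cl g) := by ring
  rw [e1]
  have e2 := norm_add_le (X - Y) (Y - 1 / cl g)
  have e3 : √(Lf j) / 2 * JR (af j) = (Lf j * JR (af j)) / 2 * (1 / √(Lf j)) := by
    field_simp
    rw [Real.sq_sqrt hLp.le]
    ring
  have e4 : 1 / (2 * √(Lf j)) * (∫ y in Ioi (0 : ℝ), ‖K y - Km g 1 (Lf j) y‖ ^ 2 * y ^ 2) ≤
      C / 2 * (1 / √(Lf j)) := by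
    have h5 := mul_le_mul_of_nonneg_left k6 (show 0 ≤ 1 / (2 * √(Lf j)) by positivity)
    refine h5.trans (le_of_eq ?_)
    field_simp
  have e5 : (Lf j * JR (af j)) / 2 * (1 / √(Lf j)) ≤ C0 / 2 * (1 / √(Lf j)) :=
    mul_le_mul_of_nonneg_right (by linarith [hC0 j]) (by positivity)
  have e6 : (C0 + C) / 2 * (1 / √(Lf j)) = C0 / 2 * (1 / √(Lf j)) + C / 2 * (1 / √(Lf j)) := by ring
  rw [e3] at m
  rw [e6]
  linarith

theorem norm_cl (g : ℝ) : cl g * (starRingEnd ℂ) (cl g) = ((1 / 4 + g ^ 2 : ℝ) : ℂ) := by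
  rw [Complex.mul_conj]
  congr 1
  unfold cl
  rw [Complex.normSq_apply]
  simp
  ring

theorem conj_cl (g : ℝ) : (starRingEnd ℂ) (cl g) = 1 - cl g := by
  unfold cl
  rw [map_add, map_mul, Complex.conj_I, Complex.conj_ofReal, map_div₀, map_one]
  have h9 : (starRingEnd ℂ) 2 = 2 := Complex.conj_ofNat 2
  rw [h9]
  ring

theorem De_int (a : ℝ →₀ ℝ) {f : ℝ → ℂ} (hf : Continuous f) (L : ℝ) :
    IntegrableOn (fun w => (De a w : ℂ) * f w) (Ioc 0 L) := by
  have h1 : IntegrableOn f (Ioc 0 L) := (hf.integrableOn_Icc (a := 0) (b := L)).mono_set Ioc_subset_Icc_self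
  refine Integrable.bdd_mul (c := 1 + a.sum fun _ c => |c|) h1 ?_ ?_
  · exact (Complex.measurable_ofReal.comp (De_meas a)).aestronglyMeasurable
  · refine Filter.Eventually.of_forall fun w => ?_
    rw [Complex.norm_real, Real.norm_eq_abs]
    exact De_bound a w

/-- the pairing with the sum over finitely many zeros -/
theorem ZS_lim (h1 : S_TR) (h3 : S_intR) {Lf : ℕ → ℝ} {af : ℕ → (ℝ →₀ ℝ)} (hF : Good Lf af) (S : Finset ℝ)
    (hS : ∀ g ∈ S, riemannZeta (cl g) = 0) :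
    Tendsto (fun j => ∫ w in (0 : ℝ)..(Lf j), (De (af j) w : ℂ) * (ZS S w * ((Real.exp (-w) : ℝ) : ℂ))) atTop
      (𝓝 ((∑ g ∈ S, (mz (cl g) : ℝ) / (1 / 4 + g ^ 2) : ℝ) : ℂ)) := by
  have key : Tendsto (fun j => ∑ g ∈ S, ((mz (cl g) : ℂ) / cl g) *
      (starRingEnd ℂ) (∫ w in (0 : ℝ)..(Lf j), (De (af j) w : ℂ) * cexp (-(w * cl g)))) atTop
      (𝓝 ((∑ g ∈ S, (mz (cl g) : ℝ) / (1 / 4 + g ^ 2) : ℝ) : ℂ)) := by
    rw [Complex.ofReal_sum]
    refine tendsto_finsetSum _ fun g hg => ?_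
    rcases Nat.eq_zero_or_pos (mz (cl g)) with h | h
    · rw [h]
      simp
    · have h4 := (Complex.continuous_conj.tendsto _).comp (pair_lim h1 h3 hF (hS g hg) h)
      have h5 := h4.const_mul ((mz (cl g) : ℂ) / cl g)
      have e : (mz (cl g) : ℂ) / cl g * (starRingEnd ℂ) (1 / cl g) = (((mz (cl g) : ℝ) / (1 / 4 + g ^ 2) : ℝ) : ℂ) := by
        rw [Complex.ofReal_div, ← norm_cl, map_div₀, map_one, div_mul_div_comm, mul_one, Complex.ofReal_natCast]
      rw [e] at h5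
      exact h5
  refine key.congr' ?_
  filter_upwards [hF.tend.eventually_ge_atTop 0] with j hj
  have e1 : ∀ w : ℝ, (De (af j) w : ℂ) * (ZS S w * ((Real.exp (-w) : ℝ) : ℂ)) =
      ∑ g ∈ S, ((mz (cl g) : ℂ) / cl g) * (starRingEnd ℂ) ((De (af j) w : ℂ) * cexp (-(w * cl g))) := by
    intro w
    unfold ZS
    rw [Finset.sum_mul, Finset.mul_sum]
    refine Finset.sum_congr rfl fun g _ => ?_
    have e2 : (starRingEnd ℂ) (cexp (-(w * cl g))) = cexp (w * cl g) * ((Real.exp (-w) : ℝ) : ℂ) := by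
      rw [← Complex.exp_conj, map_neg, map_mul, Complex.conj_ofReal, conj_cl, Complex.ofReal_exp, ← Complex.exp_add]
      congr 1
      push_cast
      ring
    rw [map_mul, Complex.conj_ofReal, e2]
    ring
  rw [intervalIntegral.integral_of_le hj]
  simp only [e1]
  rw [integral_finsetSum]
  · refine Finset.sum_congr rfl fun g _ => ?_
    rw [integral_const_mul, integral_conj, intervalIntegral.integral_of_le hj]
  · intro g _
    refine Integrable.const_mul ?_ _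
    have h6 : IntegrableOn (fun w : ℝ => (De (af j) w : ℂ) * cexp (-(w * cl g))) (Ioc 0 (Lf j)) :=
      De_int (af j) (by fun_prop) (Lf j)
    have h7 : IntegrableOn (fun w : ℝ => (De (af j) w : ℂ) * (starRingEnd ℂ) (cexp (-(w * cl g)))) (Ioc 0 (Lf j)) :=
      De_int (af j) (Complex.continuous_conj.comp (by fun_prop)) (Lf j)
    refine h7.congr (ae_of_all _ fun w => ?_)
    show (De (af j) w : ℂ) * (starRingEnd ℂ) (cexp (-(w * cl g))) =
      (starRingEnd ℂ) ((De (af j) w : ℂ) * cexp (-(w * cl g)))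
    rw [map_mul, Complex.conj_ofReal]

/-- the remainder -/
theorem rem_le (hX : S_XW) (a : ℝ →₀ ℝ) (ha : ∀ θ ∈ a.support, 0 < θ ∧ θ ≤ 1) (S : Finset ℝ) {L s C0 : ℝ} (hL : 0 < L)
    (hs : 0 < s) (hJ : L * JR a ≤ C0)
    (hc : 1 / L * ∫ w in (0 : ℝ)..L, ‖(ph w : ℂ) + ZS S w‖ ^ 2 * Real.exp (-w) ≤ s ^ 2) :
    ‖∫ w in (0 : ℝ)..L, (De a w : ℂ) * (((ph w : ℂ) + ZS S w) * ((Real.exp (-w) : ℝ) : ℂ))‖ ≤ s * (C0 + 1) / 2 := by
  obtain ⟨x1, x2⟩ := hX.1 a ha
  have ht : 0 < L * s := mul_pos hL hs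
  have hb : ∀ w : ℝ, ‖(De a w : ℂ) * (((ph w : ℂ) + ZS S w) * ((Real.exp (-w) : ℝ) : ℂ))‖ ≤
      (L * s) / 2 * (De a w ^ 2 * Real.exp (-w)) +
        1 / (2 * (L * s)) * (‖(ph w : ℂ) + ZS S w‖ ^ 2 * Real.exp (-w)) := by
    intro w
    have h := prod_le ht |De a w| ‖(ph w : ℂ) + ZS S w‖
    rw [sq_abs] at h
    rw [norm_mul, norm_mul, Complex.norm_real, Complex.norm_real, Real.norm_eq_abs, Real.norm_of_nonneg (Real.exp_pos _).le]
    have h2 := mul_le_mul_of_nonneg_right h (Real.exp_pos (-w)).le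
    linarith
  have hG : MemLp (fun w => (ph w : ℂ) + ZS S w) 2 (volume.restrict (Ioc 0 L)) := by
    have h4 : MemLp (fun w => (ph w : ℂ)) 2 (volume.restrict (Ioc 0 L)) :=
      mlp (Complex.measurable_ofReal.comp ph_meas) (B := Chebyshev.psi (Real.exp L) + Real.exp L)
        fun w hw => by
          show ‖((ph w : ℝ) : ℂ)‖ ≤ _
          rw [Complex.norm_real, Real.norm_eq_abs]
          exact ph_bound hw.2
    exact h4.add (mlp_c (ZS_cont S) 0 L)
  have hGi : IntegrableOn (fun w => ‖(ph w : ℂ) + ZS S w‖ ^ 2 * Real.exp (-w)) (Ioc 0 L) := by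
    refine (isq hG).mul_bdd (c := 1) ?_ ?_
    · exact (by fun_prop : Continuous fun w : ℝ => Real.exp (-w)).aestronglyMeasurable
    · rw [ae_restrict_iff' measurableSet_Ioc]
      refine ae_of_all _ fun w hw => ?_
      rw [Real.norm_of_nonneg (Real.exp_pos _).le]
      exact Real.exp_le_one_iff.2 (by linarith [hw.1])
  have i1 : IntegrableOn (fun w => (L * s) / 2 * (De a w ^ 2 * Real.exp (-w))) (Ioc 0 L) :=
    (x1.integrableOn).const_mul _
  have i2 : IntegrableOn (fun w => 1 / (2 * (L * s)) * (‖(ph w : ℂ) + ZS S w‖ ^ 2 * Real.exp (-w))) (Ioc 0 L) :=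
    hGi.const_mul _
  rw [intervalIntegral.integral_of_le hL.le] at hc ⊢
  refine (norm_integral_le_of_norm_le (i1.add i2) (ae_of_all _ hb)).trans ?_
  simp only [Pi.add_apply]
  rw [integral_add i1 i2, integral_const_mul, integral_const_mul]
  have k1 : ∫ w in Ioc 0 L, De a w ^ 2 * Real.exp (-w) ≤ JR a := by
    rw [← x2]
    exact setIntegral_le_integral x1 (ae_of_all _ fun w => by positivity)
  have k2 : (L * s) / 2 * ∫ w in Ioc 0 L, De a w ^ 2 * Real.exp (-w) ≤ s * C0 / 2 := by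
    have h5 := mul_le_mul_of_nonneg_left k1 (show 0 ≤ (L * s) / 2 by positivity)
    have h6 := mul_le_mul_of_nonneg_left hJ (show 0 ≤ s / 2 by positivity)
    nlinarith
  have k3 : 1 / (2 * (L * s)) * ∫ w in Ioc 0 L, ‖(ph w : ℂ) + ZS S w‖ ^ 2 * Real.exp (-w) ≤ s / 2 := by
    have h5 := mul_le_mul_of_nonneg_left hc (show 0 ≤ 1 / (2 * s) by positivity)
    refine le_trans (le_of_eq ?_) (h5.trans (le_of_eq ?_))
    · field_simp
    · field_simp
  linarith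

/-- **JOB PAI** -/
theorem t_PAI (h1 : S_TR) (h3 : S_intR) (hX : S_XW) (h4 : S_CR4) (hs : S_sum2) : S_PAI := by
  intro hRH Lf af hF
  have hB : Summable (fun g : Go => (mz (cl g) : ℝ) ^ 2 / (1 / 4 + (g : ℝ) ^ 2)) :=
    Pool.Agent.Q286.BD.summ_line hRH hs
  have hA : Summable (fun g : Go => (mz (cl g) : ℝ) / (1 / 4 + (g : ℝ) ^ 2)) := by
    refine Summable.of_nonneg_of_le (fun g => by positivity) (fun g => ?_) hB
    refine div_le_div_of_nonneg_right ?_ (by positivity)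
    rcases Nat.eq_zero_or_pos (mz (cl g)) with h | h
    · rw [h]; simp
    · have : (1 : ℝ) ≤ mz (cl g) := by exact_mod_cast h
      nlinarith
  rw [Metric.tendsto_atTop']
  intro η hη
  obtain ⟨C0', hC0'⟩ := hF.bdd
  obtain ⟨C0, hC0, hC0p⟩ : ∃ C0 : ℝ, (∀ j, Lf j * JR (af j) ≤ C0) ∧ 0 ≤ C0 :=
    ⟨max C0' 0, fun j => (hC0' j).trans (le_max_left _ _), le_max_right _ _⟩
  obtain ⟨s, hsd⟩ : ∃ s : ℝ, s = η / (2 * (C0 + 1)) := ⟨_, rfl⟩
  have hsp : 0 < s := by rw [hsd]; positivity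
  have hse : s * (C0 + 1) / 2 = η / 4 := by
    rw [hsd]; field_simp; norm_num
  obtain ⟨S0, hS0, hCR⟩ := h4 hRH (s ^ 2) (by positivity)
  have t1 : ∀ᶠ T : Finset Go in atTop, |∑ g ∈ T, (mz (cl g) : ℝ) / (1 / 4 + (g : ℝ) ^ 2) -
      ∑' g : Go, (mz (cl g) : ℝ) / (1 / 4 + (g : ℝ) ^ 2)| < η / 4 := by
    have := Metric.tendsto_nhds.mp hA.hasSum (η / 4) (by positivity)
    filter_upwards [this] with T hT
    rw [Real.dist_eq] at hT
    exact hT
  have t3 : ∀ᶠ T : Finset Go in atTop, S0.subtype (· ∈ Go) ≤ T := eventually_ge_atTop _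
  obtain ⟨T, hT1, hT3⟩ := (t1.and t3).exists
  obtain ⟨S, hSd⟩ : ∃ S : Finset ℝ, S = T.map (Function.Embedding.subtype _) := ⟨_, rfl⟩
  have hSz : ∀ g ∈ S, riemannZeta (cl g) = 0 := by
    intro g hg
    rw [hSd, Finset.mem_map] at hg
    obtain ⟨g', -, rfl⟩ := hg
    exact g'.2
  have hSS : S0 ⊆ S := by
    intro g hg
    rw [hSd, Finset.mem_map]
    exact ⟨⟨g, hS0 g hg⟩, hT3 (by rw [Finset.mem_subtype]; exact hg), rfl⟩
  have hXS : ∑ g ∈ S, (mz (cl g) : ℝ) / (1 / 4 + g ^ 2) = ∑ g ∈ T, (mz (cl g) : ℝ) / (1 / 4 + (g : ℝ) ^ 2) := by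
    rw [hSd, Finset.sum_map]
    rfl
  have l1 := Metric.tendsto_nhds.mp (ZS_lim h1 h3 hF S hSz) (η / 4) (by positivity)
  have l2 := hF.tend.eventually (hCR S hSS hSz)
  obtain ⟨N, hN⟩ := eventually_atTop.mp ((l1.and l2).and (hF.tend.eventually_ge_atTop 1))
  refine ⟨N, fun j hj => ?_⟩
  obtain ⟨⟨a1, a2⟩, a3⟩ := hN j hj.le
  have hLp : 0 < Lf j := by linarith
  have ha' : ∀ θ ∈ (af j).support, 0 < θ ∧ θ ≤ 1 :=
    fun θ hθ => ⟨lt_of_lt_of_le (Real.exp_pos _) (hF.supp j θ hθ).1, (hF.supp j θ hθ).2⟩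
  have a4 := rem_le hX (af j) ha' S hLp hsp (hC0 j) a2
  rw [hse] at a4
  -- the identity
  have j1 : IntegrableOn (fun w : ℝ => (De (af j) w : ℂ) * (ZS S w * ((Real.exp (-w) : ℝ) : ℂ))) (Ioc 0 (Lf j)) :=
    De_int (af j) ((ZS_cont S).mul (by fun_prop)) (Lf j)
  have j2 : IntegrableOn (fun w : ℝ => ((De (af j) w * ph w * Real.exp (-w) : ℝ) : ℂ)) (Ioc 0 (Lf j)) := by
    have h5 : MemLp (fun w : ℝ => ((De (af j) w * ph w * Real.exp (-w) : ℝ) : ℂ)) 2 (volume.restrict (Ioc 0 (Lf j))) := by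
      refine mlp (B := (1 + (af j).sum fun _ c => |c|) * (Chebyshev.psi (Real.exp (Lf j)) + Real.exp (Lf j))) ?_ ?_
      · exact Complex.measurable_ofReal.comp (((De_meas (af j)).mul ph_meas).mul (by fun_prop))
      · intro w hw
        rw [Complex.norm_real, Real.norm_eq_abs, abs_mul, abs_mul, abs_of_pos (Real.exp_pos (-w))]
        have b1 := De_bound (af j) w
        have b2 := ph_bound hw.2
        have b3 : Real.exp (-w) ≤ 1 := Real.exp_le_one_iff.2 (by linarith [hw.1])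
        have b4 := abs_nonneg (De (af j) w)
        have b5 := abs_nonneg (ph w)
        calc |De (af j) w| * |ph w| * Real.exp (-w) ≤ |De (af j) w| * |ph w| * 1 :=
              mul_le_mul_of_nonneg_left b3 (by positivity)
          _ = |De (af j) w| * |ph w| := mul_one _
          _ ≤ _ := mul_le_mul b1 b2 b5 (b4.trans b1)
    exact h5.integrable one_le_two
  have e1 : ∫ w in (0 : ℝ)..(Lf j), (De (af j) w : ℂ) * (((ph w : ℂ) + ZS S w) * ((Real.exp (-w) : ℝ) : ℂ)) =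
      ((∫ w in (0 : ℝ)..(Lf j), De (af j) w * ph w * Real.exp (-w) : ℝ) : ℂ) +
        ∫ w in (0 : ℝ)..(Lf j), (De (af j) w : ℂ) * (ZS S w * ((Real.exp (-w) : ℝ) : ℂ)) := by
    rw [intervalIntegral.integral_of_le hLp.le, intervalIntegral.integral_of_le hLp.le,
      intervalIntegral.integral_of_le hLp.le, ← integral_complex_ofReal, ← integral_add j2 j1]
    refine integral_congr_ae (ae_of_all _ fun w => ?_)
    show (De (af j) w : ℂ) * (((ph w : ℂ) + ZS S w) * ((Real.exp (-w) : ℝ) : ℂ)) =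
      ((De (af j) w * ph w * Real.exp (-w) : ℝ) : ℂ) + (De (af j) w : ℂ) * (ZS S w * ((Real.exp (-w) : ℝ) : ℂ))
    push_cast
    ring
  obtain ⟨R, hR⟩ : ∃ R : ℂ, R = ∫ w in (0 : ℝ)..(Lf j), (De (af j) w : ℂ) * (((ph w : ℂ) + ZS S w) *
    ((Real.exp (-w) : ℝ) : ℂ)) := ⟨_, rfl⟩
  obtain ⟨Z, hZ⟩ : ∃ Z : ℂ, Z = ∫ w in (0 : ℝ)..(Lf j), (De (af j) w : ℂ) * (ZS S w * ((Real.exp (-w) : ℝ) : ℂ)) :=
    ⟨_, rfl⟩
  obtain ⟨P, hP⟩ : ∃ P : ℝ, P = ∫ w in (0 : ℝ)..(Lf j), De (af j) w * ph w * Real.exp (-w) := ⟨_, rfl⟩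
  obtain ⟨x, hx⟩ : ∃ x : ℝ, x = ∑ g ∈ T, (mz (cl g) : ℝ) / (1 / 4 + (g : ℝ) ^ 2) := ⟨_, rfl⟩
  rw [← hR, ← hZ, ← hP] at e1
  rw [← hR] at a4
  rw [← hZ, hXS, ← hx, dist_eq_norm] at a1
  rw [← hx] at hT1
  rw [← hP, Real.dist_eq]
  have f1 : |(-P) - x| < η / 2 := by
    have f2 : (((-P) - x : ℝ) : ℂ) = (Z - (x : ℂ)) - R := by
      rw [e1]; push_cast; ring
    have f3 : |(-P) - x| = ‖(((-P) - x : ℝ) : ℂ)‖ := by rw [Complex.norm_real, Real.norm_eq_abs]
    rw [f3, f2]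
    have f4 := norm_sub_le (Z - (x : ℂ)) R
    linarith
  have f5 := abs_sub_le (-P) x (∑' g : Go, (mz (cl g) : ℝ) / (1 / 4 + (g : ℝ) ^ 2))
  linarith

end Pool.Agent.Q149.OE
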