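import Pool.Agent.Q260.OE.Stm5
import Pool.Agent.Q123.OE.Frq

set_option autoImplicit false

/-!
# Project OE, job PHS: the law in phase space
-/

namespace Pool.Agent.Q149.OE

open Complex MeasureTheory Filter Topology Set
open Pool.Agent.Q286.BD (cl mz difR JR)
open Pool.Agent.Q260.GM (ph)
open Pool.Agent.Q260.OE
open Pool.Agent.Q123.OE

/-- Plancherel for functions living on `(s, t]` -/
lemma plg0 (hp : S_PLG) {k : ℝ → ℂ} {s t : ℝ} (hs : 0 ≤ s) (hst : s ≤ t)
    (hk : MemLp k 2 (volume.restrict (Ioc s t))) :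
    Integrable (fun τ : ℝ => ‖∫ w in s..t, k w * cexp (-(τ * w * I))‖ ^ 2) ∧
    ∫ w in s..t, ‖k w‖ ^ 2 = 1 / (2 * Real.pi) * ∫ τ : ℝ, ‖∫ w in s..t, k w * cexp (-(τ * w * I))‖ ^ 2 := by
  have hki : IntegrableOn k (Ioc s t) := hk.integrable one_le_two
  have hki2 : IntegrableOn (fun u => ‖k u‖ ^ 2) (Ioc s t) := isq hk
  have hsub : Ioi (0 : ℝ) ∩ Ioc s t = Ioc s t := inter_eq_right.mpr fun x hx => lt_of_le_of_lt hs hx.1
  have e1 : (fun w : ℝ => ‖indicator (Ioc s t) k w‖ ^ 2) = indicator (Ioc s t) (fun w : ℝ => ‖k w‖ ^ 2) := by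
    funext w
    by_cases hw : w ∈ Ioc s t
    · rw [indicator_of_mem hw, indicator_of_mem hw]
    · rw [indicator_of_notMem hw, indicator_of_notMem hw]; simp
  have et : ∀ τ : ℝ, ∫ w in Ioi (0 : ℝ), indicator (Ioc s t) k w * cexp (-(τ * w * I)) =
      ∫ w in s..t, k w * cexp (-(τ * w * I)) := by
    intro τ
    have e0 : ∀ w : ℝ, indicator (Ioc s t) k w * cexp (-(τ * w * I)) =
        indicator (Ioc s t) (fun w : ℝ => k w * cexp (-(τ * w * I))) w := by
      intro w
      by_cases hw : w ∈ Ioc s t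
      · rw [indicator_of_mem hw, indicator_of_mem hw]
      · rw [indicator_of_notMem hw, indicator_of_notMem hw, zero_mul]
    simp only [e0]
    rw [setIntegral_indicator measurableSet_Ioc, hsub, intervalIntegral.integral_of_le hst]
  obtain ⟨p1, p2⟩ := hp (indicator (Ioc s t) k) ((integrable_indicator_iff measurableSet_Ioc).mpr hki).integrableOn
    (by rw [e1]; exact ((integrable_indicator_iff measurableSet_Ioc).mpr hki2).integrableOn)
  simp only [et] at p1 p2
  refine ⟨p1, ?_⟩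
  rw [← p2, e1, setIntegral_indicator measurableSet_Ioc, hsub, intervalIntegral.integral_of_le hst]

lemma eh_exp (w τ : ℝ) : eh w * cexp (-(τ * w * I)) = cexp (-(cl τ * w)) := by
  unfold eh cl
  rw [Complex.ofReal_exp, ← Complex.exp_add]
  congr 1
  push_cast
  ring

/-- the transform of `f` on the window `[s, t]` -/
noncomputable def tr (f : ℝ → ℂ) (s t τ : ℝ) : ℂ := ∫ w in s..t, f w * cexp (-(cl τ * w))

lemma plgW (hp : S_PLG) {f : ℝ → ℂ} {s t : ℝ} (hs : 0 ≤ s) (hst : s ≤ t)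
    (hf : MemLp (fun w => f w * eh w) 2 (volume.restrict (Ioc s t))) :
    Integrable (fun τ : ℝ => ‖tr f s t τ‖ ^ 2) ∧
    ∫ w in s..t, ‖f w‖ ^ 2 * Real.exp (-w) = 1 / (2 * Real.pi) * ∫ τ : ℝ, ‖tr f s t τ‖ ^ 2 := by
  obtain ⟨p1, p2⟩ := plg0 hp hs hst hf
  have e : ∀ τ : ℝ, ∫ w in s..t, f w * eh w * cexp (-(τ * w * I)) = tr f s t τ := by
    intro τ
    unfold tr
    refine intervalIntegral.integral_congr fun w _ => ?_
    show f w * eh w * cexp (-(τ * w * I)) = f w * cexp (-(cl τ * w))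
    rw [mul_assoc, eh_exp]
  simp only [e] at p1 p2
  simp only [sq_eh] at p2
  exact ⟨p1, p2⟩

lemma norm_cexp {w τ : ℝ} (hw : 0 ≤ w) : ‖cexp (-(cl τ * w))‖ ≤ 1 := by
  rw [Complex.norm_exp]
  refine Real.exp_le_one_iff.mpr ?_
  simp [cl]
  exact hw

lemma tr_cont {f : ℝ → ℂ} (hm : Measurable f) {s t B : ℝ} (hs : 0 ≤ s) (hst : s ≤ t)
    (hB : ∀ w ∈ Ioc s t, ‖f w‖ ≤ B) : Continuous (tr f s t) := by
  unfold tr
  refine intervalIntegral.continuous_of_dominated_interval (bound := fun _ => B) ?_ ?_ ?_ ?_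
  · intro t
    refine Measurable.aestronglyMeasurable ?_
    refine hm.mul ?_
    fun_prop
  · intro τ
    refine ae_of_all _ fun w hw => ?_
    rw [uIoc_of_le hst] at hw
    rw [norm_mul]
    have h1 := hB w hw
    have h2 : ‖cexp (-(cl τ * w))‖ ≤ 1 := norm_cexp (hs.trans hw.1.le)
    have h3 := norm_nonneg (cexp (-(cl τ * w)))
    have h4 := norm_nonneg (f w)
    nlinarith
  · exact intervalIntegrable_const
  · refine ae_of_all _ fun w _ => ?_
    have := cl_cont
    fun_prop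

lemma tr_int {f : ℝ → ℂ} (hm : Measurable f) {s t B : ℝ} (hs : 0 ≤ s) (hst : s ≤ t)
    (hB : ∀ w ∈ Ioc s t, ‖f w‖ ≤ B) (τ : ℝ) :
    IntervalIntegrable (fun w : ℝ => f w * cexp (-(cl τ * w))) volume s t := by
  rw [intervalIntegrable_iff_integrableOn_Ioc_of_le hst]
  have h1 : MemLp (fun w : ℝ => f w * cexp (-(cl τ * w))) 2 (volume.restrict (Ioc s t)) := by
    refine mlp (B := B) (hm.mul (by fun_prop)) fun w hw => ?_
    show ‖f w * cexp (-(cl τ * w))‖ ≤ B
    rw [norm_mul]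
    have h1 := hB w hw
    have h2 : ‖cexp (-(cl τ * w))‖ ≤ 1 := norm_cexp (hs.trans hw.1.le)
    have h3 := norm_nonneg (cexp (-(cl τ * w)))
    have h4 := norm_nonneg (f w)
    nlinarith
  exact h1.integrable one_le_two

/-! ## the profile -/

/-- the profile of a polynomial on `[u, v]` -/
noncomputable def HP (q : Polynomial ℝ) (u v s : ℝ) : ℂ :=
  ∫ x in u..v, ((q.eval x : ℝ) : ℂ) * cexp (-(s * x * I))

lemma HP_bound0 (q : Polynomial ℝ) {u v : ℝ} (huv : u ≤ v) : ∃ M : ℝ, 0 ≤ M ∧ ∀ s, ‖HP q u v s‖ ≤ M := by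
  obtain ⟨B, hB⟩ := isCompact_Icc.exists_bound_of_continuousOn (s := Icc u v) (f := fun x => q.eval x)
    q.continuous.continuousOn
  have hB0 : 0 ≤ B := (norm_nonneg _).trans (hB u ⟨le_rfl, huv⟩)
  refine ⟨B * (v - u), mul_nonneg hB0 (by linarith), fun s => ?_⟩
  unfold HP
  have h := intervalIntegral.norm_integral_le_of_norm_le_const (a := u) (b := v) (C := B)
    (f := fun x : ℝ => ((q.eval x : ℝ) : ℂ) * cexp (-(s * x * I))) (fun x hx => by
      rw [uIoc_of_le huv] at hx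
      show ‖((q.eval x : ℝ) : ℂ) * cexp (-(s * x * I))‖ ≤ B
      rw [norm_mul, Complex.norm_real, Complex.norm_exp]
      have h0 : (-(s * x * I : ℂ)).re = 0 := by simp
      rw [h0, Real.exp_zero, mul_one]
      exact hB x ⟨hx.1.le, hx.2⟩)
  rwa [abs_of_nonneg (by linarith)] at h

lemma HP_parts (q : Polynomial ℝ) (u v s : ℝ) : (s : ℂ) * I * HP q u v s = HP q.derivative u v s -
    (((q.eval v : ℝ) : ℂ) * cexp (-(s * v * I)) - ((q.eval u : ℝ) : ℂ) * cexp (-(s * u * I))) := by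
  have hd : ∀ x ∈ uIcc u v, HasDerivAt (fun x : ℝ => ((q.eval x : ℝ) : ℂ) * cexp (-(s * x * I)))
      (((q.derivative.eval x : ℝ) : ℂ) * cexp (-(s * x * I)) +
        ((q.eval x : ℝ) : ℂ) * (cexp (-(s * x * I)) * (-(s * I)))) x := by
    intro x _
    have h1 : HasDerivAt (fun x : ℝ => ((q.eval x : ℝ) : ℂ)) ((q.derivative.eval x : ℝ) : ℂ) x :=
      (q.hasDerivAt x).ofReal_comp
    have h2 : HasDerivAt (fun x : ℝ => cexp (-(s * x * I))) (cexp (-(s * x * I)) * (-(s * I))) x := by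
      have h3 : HasDerivAt (fun z : ℂ => cexp (-(s * z * I))) (cexp (-(s * x * I)) * (-(s * 1 * I))) (x : ℂ) :=
        ((((hasDerivAt_id (x : ℂ)).const_mul (s : ℂ)).mul_const I).neg).cexp
      rw [mul_one] at h3
      exact h3.comp_ofReal
    exact h1.mul h2
  have hc1 : Continuous fun x : ℝ => ((q.derivative.eval x : ℝ) : ℂ) * cexp (-(s * x * I)) :=
    (Complex.continuous_ofReal.comp q.derivative.continuous).mul (by fun_prop)
  have hc2 : Continuous fun x : ℝ => ((q.eval x : ℝ) : ℂ) * cexp (-(s * x * I)) :=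
    (Complex.continuous_ofReal.comp q.continuous).mul (by fun_prop)
  have hc3 : Continuous fun x : ℝ => ((q.eval x : ℝ) : ℂ) * (cexp (-(s * x * I)) * (-(s * I))) :=
    (Complex.continuous_ofReal.comp q.continuous).mul (by fun_prop)
  have h4 := intervalIntegral.integral_eq_sub_of_hasDerivAt hd ((hc1.add hc3).intervalIntegrable _ _)
  rw [intervalIntegral.integral_add (hc1.intervalIntegrable _ _) (hc3.intervalIntegrable _ _)] at h4
  have h5 : ∫ x in u..v, ((q.eval x : ℝ) : ℂ) * (cexp (-(s * x * I)) * (-(s * I))) = -(s * I) * HP q u v s := by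
    unfold HP
    rw [← intervalIntegral.integral_const_mul]
    refine intervalIntegral.integral_congr fun x _ => ?_
    show ((q.eval x : ℝ) : ℂ) * (cexp (-(s * x * I)) * (-(s * I))) =
      -(s * I) * (((q.eval x : ℝ) : ℂ) * cexp (-(s * x * I)))
    ring
  rw [h5] at h4
  rw [← h4]
  unfold HP
  ring

lemma HP_prop (hp : S_PLG) (q : Polynomial ℝ) {u v : ℝ} (hu : 0 ≤ u) (huv : u ≤ v) :
    Continuous (HP q u v) ∧ (∃ C : ℝ, 0 < C ∧ ∀ s : ℝ, ‖HP q u v s‖ ≤ C / (1 + |s|)) ∧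
    Integrable (fun s : ℝ => ‖HP q u v s‖ ^ 2) ∧
    1 / (2 * Real.pi) * ∫ s : ℝ, ‖HP q u v s‖ ^ 2 = ∫ x in u..v, q.eval x ^ 2 := by
  refine ⟨?_, ?_, ?_⟩
  · unfold HP
    refine intervalIntegral.continuous_parametric_intervalIntegral_of_continuous' ?_ u v
    show Continuous fun z : ℝ × ℝ => ((q.eval z.2 : ℝ) : ℂ) * cexp (-(z.1 * z.2 * I))
    exact (Complex.continuous_ofReal.comp (q.continuous.comp continuous_snd)).mul (by fun_prop)
  · obtain ⟨M, hM, hM'⟩ := HP_bound0 q huv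
    obtain ⟨N, hN, hN'⟩ := HP_bound0 q.derivative huv
    refine ⟨M + (N + (|q.eval v| + |q.eval u|)) + 1, by positivity, fun s => ?_⟩
    have n1 : ∀ x : ℝ, ‖((q.eval x : ℝ) : ℂ) * cexp (-(s * x * I))‖ = |q.eval x| := by
      intro x
      rw [norm_mul, Complex.norm_real, Complex.norm_exp, Real.norm_eq_abs]
      have h0 : (-(s * x * I : ℂ)).re = 0 := by simp
      rw [h0, Real.exp_zero, mul_one]
    have h1 : |s| * ‖HP q u v s‖ ≤ N + (|q.eval v| + |q.eval u|) := by
      have h2 : |s| * ‖HP q u v s‖ = ‖(s : ℂ) * I * HP q u v s‖ := by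
        rw [norm_mul, norm_mul, Complex.norm_I, mul_one, Complex.norm_real, Real.norm_eq_abs]
      rw [h2, HP_parts]
      refine (norm_sub_le _ _).trans (add_le_add (hN' s) ((norm_sub_le _ _).trans ?_))
      rw [n1, n1]
    rw [le_div_iff₀ (by positivity)]
    have h3 := hM' s
    nlinarith
  · have h1 := plg0 hp (k := fun x : ℝ => ((q.eval x : ℝ) : ℂ)) hu huv
      (mlp_c (Complex.continuous_ofReal.comp q.continuous) u v)
    refine ⟨h1.1, ?_⟩
    have h2 : ∫ x in u..v, q.eval x ^ 2 = ∫ x in u..v, ‖((q.eval x : ℝ) : ℂ)‖ ^ 2 := by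
      refine intervalIntegral.integral_congr fun x _ => ?_
      show q.eval x ^ 2 = ‖((q.eval x : ℝ) : ℂ)‖ ^ 2
      rw [Complex.norm_real, Real.norm_eq_abs, sq_abs]
    rw [h2, h1.2]
    rfl

/-- the contribution of the zero `g` -/
noncomputable def bg (a b u v g L t : ℝ) : ℂ := HP (qp a b g) u v ((t - g) * L) / cl g

/-- the limit belonging to the zero `g` -/
noncomputable def zg (a b u v α β g : ℝ) : ℝ := if α < g ∧ g < β then xg a b u v g else 0

lemma zg_nonneg (a b : ℝ) {u v : ℝ} (huv : u ≤ v) (α β g : ℝ) : 0 ≤ zg a b u v α β g := by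
  unfold zg
  split_ifs
  · exact xg_nonneg a b huv g
  · exact le_rfl

lemma zg_le (a b : ℝ) {u v : ℝ} (huv : u ≤ v) (α β g : ℝ) : zg a b u v α β g ≤ xg a b u v g := by
  unfold zg
  split_ifs
  · exact le_rfl
  · exact xg_nonneg a b huv g

lemma bg_cont (hp : S_PLG) (a b : ℝ) {u v : ℝ} (hu : 0 ≤ u) (huv : u ≤ v) (g L : ℝ) : Continuous (bg a b u v g L) := by
  unfold bg
  exact ((HP_prop hp (qp a b g) hu huv).1.comp (by fun_prop)).div_const _

lemma diagP (hp : S_PLG) (a b : ℝ) {u v : ℝ} (hu : 0 ≤ u) (huv : u ≤ v) {α β : ℝ} (hab : α < β) {g : ℝ}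
    (h1 : g ≠ α) (h2 : g ≠ β) :
    Tendsto (fun L : ℝ => ∫ t in α..β, L / (2 * Real.pi) * ‖bg a b u v g L t‖ ^ 2) atTop
      (𝓝 (zg a b u v α β g)) := by
  obtain ⟨hc, -, hi, hm⟩ := HP_prop hp (qp a b g) hu huv
  set N : ℝ → ℝ := fun s => ‖HP (qp a b g) u v s‖ ^ 2 with hN
  have hg0 : (0 : ℝ) < 1 / 4 + g ^ 2 := by positivity
  -- the limit of the integrals of `N`
  have key : Tendsto (fun L : ℝ => ∫ v in (L * α - g * L)..(L * β - g * L), N v) atTop
      (𝓝 (if α < g ∧ g < β then ∫ v, N v else 0)) := by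
    have lp : ∀ x : ℝ, g < x → Tendsto (fun L : ℝ => L * x - g * L) atTop atTop := by
      intro x hx
      have : Tendsto (fun L : ℝ => L * (x - g)) atTop atTop := tendsto_id.atTop_mul_const (by linarith)
      exact this.congr fun L => by ring
    have lm : ∀ x : ℝ, x < g → Tendsto (fun L : ℝ => L * x - g * L) atTop atBot := by
      intro x hx
      have : Tendsto (fun L : ℝ => L * (x - g)) atTop atBot :=
        (tendsto_id.atTop_mul_const_of_neg (by linarith))
      exact this.congr fun L => by ring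
    rcases lt_or_gt_of_ne h1 with hga | hga
    · rw [if_neg (by intro hh; linarith [hh.1])]
      have a1 := intervalIntegral_tendsto_integral_Ioi 0 hi.integrableOn (lp α hga)
      have a2 := intervalIntegral_tendsto_integral_Ioi 0 hi.integrableOn (lp β (by linarith))
      have a3 := a2.sub a1
      rw [sub_self] at a3
      refine a3.congr fun L => ?_
      exact intervalIntegral.integral_interval_sub_left hi.intervalIntegrable hi.intervalIntegrable
    · rcases lt_or_gt_of_ne h2 with hgb | hgb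
      · rw [if_pos ⟨hga, hgb⟩]
        exact intervalIntegral_tendsto_integral hi (lm α hga) (lp β hgb)
      · rw [if_neg (by intro hh; linarith [hh.2])]
        have a1 := intervalIntegral_tendsto_integral_Iic 0 hi.integrableOn (lm α (by linarith))
        have a2 := intervalIntegral_tendsto_integral_Iic 0 hi.integrableOn (lm β hgb)
        have a3 := a1.sub a2
        rw [sub_self] at a3
        refine a3.congr fun L => ?_
        have c1 := intervalIntegral.integral_add_adjacent_intervals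
          (hi.intervalIntegrable (a := L * α - g * L) (b := L * β - g * L)) (hi.intervalIntegrable (b := 0))
        linarith
  have key2 := key.const_mul (1 / (2 * Real.pi) / (1 / 4 + g ^ 2))
  have e : 1 / (2 * Real.pi) / (1 / 4 + g ^ 2) * (if α < g ∧ g < β then ∫ v, N v else 0) = zg a b u v α β g := by
    unfold zg xg
    split_ifs
    · have hm' : 1 / (2 * Real.pi) * ∫ v : ℝ, N v =
        ∫ x in u..v, (a * (pm (mz (cl g))).eval x + b * (mz (cl g) : ℝ)) ^ 2 := by
        rw [hm]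
        simp only [qp_eval]
      rw [← hm']; field_simp
    · simp
  rw [e] at key2
  refine key2.congr' ?_
  filter_upwards [eventually_gt_atTop 0] with L hL
  have e2 : ∀ t, L / (2 * Real.pi) * ‖bg a b u v g L t‖ ^ 2 =
      L * (1 / (2 * Real.pi) / (1 / 4 + g ^ 2)) * N (L * t - g * L) := by
    intro t
    unfold bg
    rw [norm_div, div_pow, Pool.Agent.Q286.BD.norm_cl_sq]
    have : (t - g) * L = L * t - g * L := by ring
    rw [this, hN]
    ring
  simp only [e2]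
  rw [intervalIntegral.integral_const_mul, intervalIntegral.integral_comp_mul_sub _ hL.ne', smul_eq_mul]
  field_simp

lemma bg_bound (hp : S_PLG) (a b : ℝ) {u v : ℝ} (hu : 0 ≤ u) (huv : u ≤ v) (g : ℝ) :
    ∃ K : ℝ, 0 < K ∧ ∀ L t : ℝ, 0 < L → ‖bg a b u v g L t‖ ≤ K / (1 + |t - g| * L) := by
  obtain ⟨-, ⟨C, hC, hb⟩, -⟩ := HP_prop hp (qp a b g) hu huv
  have hcl : 0 < ‖cl g‖ := norm_pos_iff.mpr (cl_ne g)
  refine ⟨C / ‖cl g‖, by positivity, fun L t hL => ?_⟩
  unfold bg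
  rw [norm_div]
  have := hb ((t - g) * L)
  rw [abs_mul, abs_of_pos hL] at this
  have e : C / ‖cl g‖ / (1 + |t - g| * L) = C / (1 + |t - g| * L) / ‖cl g‖ := by
    rw [div_div, div_div, mul_comm]
  rw [e]
  exact div_le_div_of_nonneg_right this hcl.le

lemma crossP (hp : S_PLG) (a b : ℝ) {u v : ℝ} (hu : 0 ≤ u) (huv : u ≤ v) (α β : ℝ) {g g' : ℝ} (hne : g ≠ g') :
    Tendsto (fun L : ℝ => ∫ t in α..β, L / (2 * Real.pi) *
      (bg a b u v g L t * (starRingEnd ℂ) (bg a b u v g' L t)).re) atTop (𝓝 0) := by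
  obtain ⟨K, hK, hb⟩ := bg_bound hp a b hu huv g
  obtain ⟨K', hK', hb'⟩ := bg_bound hp a b hu huv g'
  set d : ℝ := |g - g'| with hd
  have hdp : 0 < d := abs_pos.mpr (sub_ne_zero.mpr hne)
  have hpt : ∀ L t : ℝ, 0 < L → ‖L / (2 * Real.pi) * (bg a b u v g L t * (starRingEnd ℂ) (bg a b u v g' L t)).re‖ ≤
      K * K' * (L / ((1 + |t - g| * L) * (1 + |t - g'| * L))) := by
    intro L t hL
    rw [norm_mul, Real.norm_eq_abs, Real.norm_eq_abs, abs_of_nonneg (by positivity)]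
    have n1 : |(bg a b u v g L t * (starRingEnd ℂ) (bg a b u v g' L t)).re| ≤
        ‖bg a b u v g L t‖ * ‖bg a b u v g' L t‖ := by
      refine (Complex.abs_re_le_norm _).trans ?_
      rw [norm_mul, RCLike.norm_conj]
    have n2 : ‖bg a b u v g L t‖ * ‖bg a b u v g' L t‖ ≤ K / (1 + |t - g| * L) * (K' / (1 + |t - g'| * L)) :=
      mul_le_mul (hb L t hL) (hb' L t hL) (norm_nonneg _) (by positivity)
    have n3 : L / (2 * Real.pi) ≤ L := by
      refine div_le_self hL.le ?_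
      have := Real.pi_gt_three
      linarith
    calc _ ≤ L * (K / (1 + |t - g| * L) * (K' / (1 + |t - g'| * L))) :=
          mul_le_mul n3 (n1.trans n2) (abs_nonneg _) hL.le
      _ = _ := by
        have p1 : 0 < 1 + |t - g| * L := by positivity
        have p2 : 0 < 1 + |t - g'| * L := by positivity
        field_simp
  have h0 : (0 : ℝ) = ∫ t in α..β, (0 : ℝ) := by simp
  rw [h0]
  refine intervalIntegral.tendsto_integral_filter_of_dominated_convergence (fun _ => K * K' * (1 / d)) ?_ ?_ ?_ ?_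
  · refine Eventually.of_forall fun L => ?_
    refine Continuous.aestronglyMeasurable ?_
    refine continuous_const.mul (Complex.continuous_re.comp ?_)
    exact (bg_cont hp a b hu huv g L).mul (Complex.continuous_conj.comp (bg_cont hp a b hu huv g' L))
  · filter_upwards [eventually_gt_atTop 0] with L hL
    refine ae_of_all _ fun t _ => (hpt L t hL).trans ?_
    refine mul_le_mul_of_nonneg_left ?_ (by positivity)
    have p1 : 0 ≤ |t - g| * L := by positivity
    have p2 : 0 ≤ |t - g'| * L := by positivity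
    have p3 : d ≤ |t - g| + |t - g'| := by
      have := abs_sub_le g t g'
      rw [abs_sub_comm g t] at this
      exact this
    rw [div_le_div_iff₀ (by positivity) hdp]
    nlinarith [mul_nonneg p1 p2]
  · exact intervalIntegrable_const
  · have hfin : ({g, g'} : Set ℝ).Finite := Set.toFinite _
    have hae : ∀ᵐ t : ℝ, t ∉ ({g, g'} : Set ℝ) := hfin.measure_zero volume |> measure_eq_zero_iff_ae_notMem.mp
    filter_upwards [hae] with t ht _
    have t1 : 0 < |t - g| := abs_pos.mpr (sub_ne_zero.mpr fun e => ht (by simp [e]))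
    have t2 : 0 < |t - g'| := abs_pos.mpr (sub_ne_zero.mpr fun e => ht (by simp [e]))
    have hl : Tendsto (fun L : ℝ => K * K' / (|t - g| * |t - g'|) * L⁻¹) atTop (𝓝 0) := by
      have := tendsto_inv_atTop_zero (𝕜 := ℝ) |>.const_mul (K * K' / (|t - g| * |t - g'|))
      rwa [mul_zero] at this
    refine squeeze_zero_norm' ?_ hl
    filter_upwards [eventually_gt_atTop 0] with L hL
    refine (hpt L t hL).trans ?_
    have : L / ((1 + |t - g| * L) * (1 + |t - g'| * L)) ≤ L / ((|t - g| * L) * (|t - g'| * L)) := by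
      gcongr <;> linarith
    calc _ ≤ K * K' * (L / ((|t - g| * L) * (|t - g'| * L))) := by gcongr
      _ = _ := by field_simp

/-- the transform of the model -/
noncomputable def Mw (S : Finset ℝ) (a b u v L t : ℝ) : ℂ := ∑ g ∈ S, bg a b u v g L t

lemma Mw_cont (hp : S_PLG) (S : Finset ℝ) (a b : ℝ) {u v : ℝ} (hu : 0 ≤ u) (huv : u ≤ v) (L : ℝ) :
    Continuous (Mw S a b u v L) :=
  continuous_finsetSum _ fun g _ => bg_cont hp a b hu huv g L

lemma Mw_sq (S : Finset ℝ) (a b u v L t : ℝ) :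
    ‖Mw S a b u v L t‖ ^ 2 = ∑ g ∈ S, ∑ g' ∈ S, (bg a b u v g L t * (starRingEnd ℂ) (bg a b u v g' L t)).re := by
  have e : ((‖Mw S a b u v L t‖ ^ 2 : ℝ) : ℂ) = Mw S a b u v L t * (starRingEnd ℂ) (Mw S a b u v L t) := by
    rw [Complex.mul_conj, Complex.normSq_eq_norm_sq]
  have e2 := congrArg Complex.re e
  rw [Complex.ofReal_re] at e2
  rw [e2]
  unfold Mw
  rw [map_sum, Finset.sum_mul_sum, Complex.re_sum]
  refine Finset.sum_congr rfl fun g _ => ?_
  rw [Complex.re_sum]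

lemma modelP (hp : S_PLG) (a b : ℝ) {u v : ℝ} (hu : 0 ≤ u) (huv : u ≤ v) {α β : ℝ} (hab : α < β) (S : Finset ℝ)
    (h1 : α ∉ S) (h2 : β ∉ S) :
    Tendsto (fun L : ℝ => L * (1 / (2 * Real.pi) * ∫ t in α..β, ‖Mw S a b u v L t‖ ^ 2)) atTop
      (𝓝 (∑ g ∈ S, zg a b u v α β g)) := by
  have hs : Tendsto (fun L : ℝ => ∑ g ∈ S, ∑ g' ∈ S,
      ∫ t in α..β, L / (2 * Real.pi) * (bg a b u v g L t * (starRingEnd ℂ) (bg a b u v g' L t)).re) atTop
      (𝓝 (∑ g ∈ S, ∑ g' ∈ S, if g = g' then zg a b u v α β g else 0)) := by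
    refine tendsto_finsetSum _ fun g hg => tendsto_finsetSum _ fun g' hg' => ?_
    by_cases hgg : g = g'
    · subst hgg
      rw [if_pos rfl]
      refine (diagP hp a b hu huv hab (g := g) (fun e => h1 (e ▸ hg)) (fun e => h2 (e ▸ hg))).congr fun L => ?_
      refine intervalIntegral.integral_congr fun t _ => ?_
      show L / (2 * Real.pi) * ‖bg a b u v g L t‖ ^ 2 = _
      rw [Complex.mul_conj, Complex.ofReal_re, Complex.normSq_eq_norm_sq]
    · rw [if_neg hgg]
      exact crossP hp a b hu huv α β hgg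
  have e : ∑ g ∈ S, ∑ g' ∈ S, (if g = g' then zg a b u v α β g else 0) = ∑ g ∈ S, zg a b u v α β g := by
    refine Finset.sum_congr rfl fun g hg => ?_
    rw [Finset.sum_ite_eq, if_pos hg]
  rw [e] at hs
  refine hs.congr fun L => ?_
  have hint : ∀ g g' : ℝ, IntervalIntegrable
      (fun t => L / (2 * Real.pi) * (bg a b u v g L t * (starRingEnd ℂ) (bg a b u v g' L t)).re) volume α β := by
    intro g g'
    refine Continuous.intervalIntegrable ?_ _ _
    refine continuous_const.mul (Complex.continuous_re.comp ?_)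
    exact (bg_cont hp a b hu huv g L).mul (Complex.continuous_conj.comp (bg_cont hp a b hu huv g' L))
  have e3 : ∀ g ∈ S, ∑ g' ∈ S, ∫ t in α..β, L / (2 * Real.pi) *
      (bg a b u v g L t * (starRingEnd ℂ) (bg a b u v g' L t)).re =
      ∫ t in α..β, ∑ g' ∈ S, L / (2 * Real.pi) * (bg a b u v g L t * (starRingEnd ℂ) (bg a b u v g' L t)).re :=
    fun g _ => (intervalIntegral.integral_finsetSum fun g' _ => hint g g').symm
  rw [Finset.sum_congr rfl e3, ← intervalIntegral.integral_finsetSum]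
  · rw [← mul_assoc, ← intervalIntegral.integral_const_mul]
    refine intervalIntegral.integral_congr fun t _ => ?_
    show ∑ g ∈ S, ∑ g' ∈ S, L / (2 * Real.pi) * (bg a b u v g L t * (starRingEnd ℂ) (bg a b u v g' L t)).re =
      L * (1 / (2 * Real.pi)) * ‖Mw S a b u v L t‖ ^ 2
    rw [Mw_sq]
    simp only [← Finset.mul_sum]
    ring
  · intro g _
    have := IntervalIntegrable.sum S
      (f := fun g' t => L / (2 * Real.pi) * (bg a b u v g L t * (starRingEnd ℂ) (bg a b u v g' L t)).re)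
      fun g' _ => hint g g'
    have e4 : (∑ g' ∈ S, fun t => L / (2 * Real.pi) * (bg a b u v g L t * (starRingEnd ℂ) (bg a b u v g' L t)).re) =
        fun t => ∑ g' ∈ S, L / (2 * Real.pi) * (bg a b u v g L t * (starRingEnd ℂ) (bg a b u v g' L t)).re := by
      funext t
      simp
    rw [e4] at this
    exact this

/-! ## the three parts -/

lemma one_zeroP (q : Polynomial ℝ) {L : ℝ} (hL : 0 < L) (u v t g : ℝ) :
    ∫ w in (u * L)..(v * L), ((q.eval (w / L) : ℝ) : ℂ) * cexp (w * cl g) * cexp (-(cl t * w)) =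
      L * HP q u v ((t - g) * L) := by
  have h := intervalIntegral.smul_integral_comp_mul_right (a := u) (b := v)
    (fun w : ℝ => ((q.eval (w / L) : ℝ) : ℂ) * cexp (w * cl g) * cexp (-(cl t * w))) L
  rw [← h, Complex.real_smul]
  congr 1
  unfold HP
  refine intervalIntegral.integral_congr fun x _ => ?_
  show ((q.eval (x * L / L) : ℝ) : ℂ) * cexp (((x * L : ℝ) : ℂ) * cl g) * cexp (-(cl t * ((x * L : ℝ) : ℂ))) =
    ((q.eval x : ℝ) : ℂ) * cexp (-((((t - g) * L : ℝ) : ℂ) * x * I))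
  rw [mul_div_cancel_right₀ _ hL.ne', mul_assoc, ← Complex.exp_add]
  congr 2
  unfold cl
  push_cast
  ring

lemma Tr_tr (S : Finset ℝ) (a b : ℝ) {L : ℝ} (hL : 0 < L) (u v t : ℝ) :
    tr (Tr S a b L) (u * L) (v * L) t = L * Mw S a b u v L t := by
  unfold tr Tr Mw
  have e : ∀ w : ℝ, (∑ g ∈ S, (((qp a b g).eval (w / L) : ℝ) : ℂ) * cexp (w * cl g) / cl g) * cexp (-(cl t * w)) =
      ∑ g ∈ S, (1 / cl g) * ((((qp a b g).eval (w / L) : ℝ) : ℂ) * cexp (w * cl g) * cexp (-(cl t * w))) := by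
    intro w
    rw [Finset.sum_mul]
    refine Finset.sum_congr rfl fun g _ => ?_
    ring
  simp only [e]
  rw [intervalIntegral.integral_finsetSum, Finset.mul_sum]
  · refine Finset.sum_congr rfl fun g _ => ?_
    rw [intervalIntegral.integral_const_mul, one_zeroP _ hL]
    unfold bg
    ring
  · intro g _
    refine Continuous.intervalIntegrable ?_ _ _
    refine continuous_const.mul (Continuous.mul (Continuous.mul ?_ (by fun_prop)) (by fun_prop))
    exact Complex.continuous_ofReal.comp ((qp a b g).continuous.comp (by fun_prop))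

lemma Mo_meas (S : Finset ℝ) (L : ℝ) : Measurable (Mo S L) := by
  unfold Mo
  refine Measurable.ite (measurableSet_Icc (a := (0 : ℝ)) (b := L)) ?_ measurable_const
  refine measurable_const.mul (Finset.measurable_fun_sum _ fun g _ => ?_)
  refine Measurable.div_const (Measurable.mul ?_ (by fun_prop)) _
  exact Complex.measurable_ofReal.comp ((pm (mz (cl g))).continuous.measurable.comp (by fun_prop))

lemma cont_bdd {f : ℝ → ℂ} (hf : Continuous f) (s t : ℝ) : ∃ B : ℝ, ∀ w ∈ Ioc s t, ‖f w‖ ≤ B := by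
  obtain ⟨B, hB⟩ := isCompact_Icc.exists_bound_of_continuousOn (s := Icc s t) hf.continuousOn
  exact ⟨B, fun w hw => hB w (Ioc_subset_Icc_self hw)⟩

/-- the decomposition of the transform -/
lemma WT_eq (S : Finset ℝ) (θ : ℝ →₀ ℝ) (a b : ℝ) {u v L : ℝ} (hL : 0 < L) (hu : 0 ≤ u) (huv : u ≤ v) (hv : v ≤ 1)
    (t : ℝ) : WT θ a b u v L t = (a : ℂ) * tr (fun w => (De θ w : ℂ) - Mo S L w) (u * L) (v * L) t +
      Mw S a b u v L t - (b : ℂ) / L * tr (fun w => (ph w : ℂ) + ZS S w) (u * L) (v * L) t := by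
  have huL : 0 ≤ u * L := by positivity
  have huvL : u * L ≤ v * L := by gcongr
  have hvL : v * L ≤ L := by nlinarith
  have hL' : (L : ℂ) ≠ 0 := by exact_mod_cast hL.ne'
  obtain ⟨B1, hB1⟩ := cont_bdd (Tr_cont S a b L) (u * L) (v * L)
  obtain ⟨B2, hB2⟩ := cont_bdd (ZS_cont S) (u * L) (v * L)
  obtain ⟨B3, hB3⟩ := cont_bdd (Tr_cont S 1 0 L) (u * L) (v * L)
  have b3 : ∀ w ∈ Ioc (u * L) (v * L), ‖Mo S L w‖ ≤ B3 / L := by
    intro w hw
    have h := Tr_eq S 1 0 hL (huL.trans hw.1.le) (hw.2.trans hvL)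
    have h2 : Mo S L w = Tr S 1 0 L w / L := by
      rw [h]
      push_cast
      field_simp
      ring
    rw [h2, norm_div, Complex.norm_real, Real.norm_of_nonneg hL.le]
    exact div_le_div_of_nonneg_right (hB3 w hw) hL.le
  have hE1 : IntervalIntegrable (fun w : ℝ => ((De θ w : ℂ) - Mo S L w) * cexp (-(cl t * w))) volume (u * L) (v * L) := by
    refine tr_int (f := fun w => (De θ w : ℂ) - Mo S L w) (B := (1 + θ.sum fun _ c => |c|) + B3 / L) ?_ huL huvL ?_ t
    · exact (Complex.measurable_ofReal.comp (De_meas θ)).sub (Mo_meas S L)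
    · intro w hw
      refine (norm_sub_le _ _).trans (add_le_add ?_ (b3 w hw))
      rw [Complex.norm_real, Real.norm_eq_abs]
      exact De_bound θ w
  have hE2 : IntervalIntegrable (fun w : ℝ => Tr S a b L w * cexp (-(cl t * w))) volume (u * L) (v * L) :=
    tr_int (Tr_cont S a b L).measurable huL huvL hB1 t
  have hE3 : IntervalIntegrable (fun w : ℝ => ((ph w : ℂ) + ZS S w) * cexp (-(cl t * w))) volume (u * L) (v * L) := by
    refine tr_int (f := fun w => (ph w : ℂ) + ZS S w)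
      (B := (Chebyshev.psi (Real.exp (v * L)) + Real.exp (v * L)) + B2) ?_ huL huvL ?_ t
    · exact (Complex.measurable_ofReal.comp ph_meas).add (ZS_cont S).measurable
    · intro w hw
      refine (norm_add_le _ _).trans (add_le_add ?_ (hB2 w hw))
      rw [Complex.norm_real, Real.norm_eq_abs]
      exact ph_bound hw.2
  have hM : Mw S a b u v L t = 1 / (L : ℂ) * tr (Tr S a b L) (u * L) (v * L) t := by
    rw [Tr_tr S a b hL]
    field_simp
  rw [hM]
  unfold WT tr
  rw [← intervalIntegral.integral_const_mul, ← intervalIntegral.integral_const_mul,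
    ← intervalIntegral.integral_const_mul, ← intervalIntegral.integral_add (hE1.const_mul _) (hE2.const_mul _),
    ← intervalIntegral.integral_sub ((hE1.const_mul _).add (hE2.const_mul _)) (hE3.const_mul _)]
  rw [intervalIntegral.integral_of_le huvL, intervalIntegral.integral_of_le huvL]
  refine setIntegral_congr_fun measurableSet_Ioc fun w hw => ?_
  show ((a * De θ w - b * ph w / L : ℝ) : ℂ) * cexp (-(cl t * w)) =
    (a : ℂ) * (((De θ w : ℂ) - Mo S L w) * cexp (-(cl t * w))) + 1 / (L : ℂ) * (Tr S a b L w * cexp (-(cl t * w))) -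
      (b : ℂ) / L * (((ph w : ℂ) + ZS S w) * cexp (-(cl t * w)))
  rw [Tr_eq S a b hL (huL.trans hw.1.le) (hw.2.trans hvL)]
  push_cast
  field_simp
  ring

lemma WT_cont (θ : ℝ →₀ ℝ) (a b : ℝ) {u v L : ℝ} (hL : 0 < L) (hu : 0 ≤ u) (huv : u ≤ v) :
    Continuous (WT θ a b u v L) := by
  have huL : 0 ≤ u * L := by positivity
  have huvL : u * L ≤ v * L := by gcongr
  refine tr_cont (f := fun w => ((a * De θ w - b * ph w / L : ℝ) : ℂ))
    (B := |a| * (1 + θ.sum fun _ c => |c|) + |b| * (Chebyshev.psi (Real.exp (v * L)) + Real.exp (v * L)) / L) ?_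
    huL huvL ?_
  · exact Complex.measurable_ofReal.comp (((De_meas θ).const_mul a).sub ((ph_meas.const_mul b).div_const L))
  · intro w hw
    rw [Complex.norm_real, Real.norm_eq_abs]
    refine (abs_sub _ _).trans (add_le_add ?_ ?_)
    · rw [abs_mul]
      exact mul_le_mul_of_nonneg_left (De_bound θ w) (abs_nonneg _)
    · rw [abs_div, abs_mul, abs_of_pos hL]
      exact div_le_div_of_nonneg_right (mul_le_mul_of_nonneg_left (ph_bound hw.2) (abs_nonneg _)) hL.le

/-- the estimate for one finite set of zeros -/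
lemma oneP (hg : S_PLG) (a b : ℝ) {L : ℝ} (hL : 0 < L) (θ : ℝ →₀ ℝ) (S : Finset ℝ) {u v : ℝ} (hu : 0 ≤ u)
    (huv : u ≤ v) (hv : v ≤ 1) {α β : ℝ} (hab : α < β)
    (hi : Integrable (fun w : ℝ => ‖(De θ w : ℂ) - Mo S L w‖ ^ 2 * Real.exp (-w))) :
    |√(L * (1 / (2 * Real.pi) * ∫ t in α..β, ‖WT θ a b u v L t‖ ^ 2)) -
      √(L * (1 / (2 * Real.pi) * ∫ t in α..β, ‖Mw S a b u v L t‖ ^ 2))| ≤
    √(2 * a ^ 2 * (L * ∫ w : ℝ, ‖(De θ w : ℂ) - Mo S L w‖ ^ 2 * Real.exp (-w)) +
      2 * b ^ 2 * (1 / L * ∫ w in (0 : ℝ)..L, ‖(ph w : ℂ) + ZS S w‖ ^ 2 * Real.exp (-w))) := by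
  have huL : 0 ≤ u * L := by positivity
  have huvL : u * L ≤ v * L := by gcongr
  have hvL : v * L ≤ L := by nlinarith
  have hsub : Ioc (u * L) (v * L) ⊆ Ioc 0 L := Ioc_subset_Ioc huL hvL
  -- the two remainders
  have m1 : MemLp (fun w => ((De θ w : ℂ) - Mo S L w) * eh w) 2 volume := by
    rw [memLp_two_iff_integrable_sq_norm]
    · refine hi.congr (ae_of_all _ fun w => ?_)
      exact (sq_eh _ _).symm
    · exact (((Complex.measurable_ofReal.comp (De_meas θ)).sub (Mo_meas S L)).mul eh_meas).aestronglyMeasurable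
  have m3 : MemLp (fun w => ((ph w : ℂ) + ZS S w) * eh w) 2 (volume.restrict (Ioc 0 L)) := by
    have := (ph_mlp (s := 0) (t := L) le_rfl).add (mlp_c ((ZS_cont S).mul eh_cont) 0 L)
    refine this.congr_norm ?_ ?_
    · exact (((Complex.measurable_ofReal.comp ph_meas).add (ZS_cont S).measurable).mul eh_meas).aestronglyMeasurable
    · refine ae_of_all _ fun w => ?_
      simp only [Pi.add_apply, Pi.mul_apply]
      congr 1
      ring
  have m3' : IntegrableOn (fun w => ‖(ph w : ℂ) + ZS S w‖ ^ 2 * Real.exp (-w)) (Ioc 0 L) := by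
    refine (isq m3).congr (ae_of_all _ fun w => ?_)
    exact sq_eh _ _
  obtain ⟨p1, p2⟩ := plgW hg (f := fun w => (De θ w : ℂ) - Mo S L w) huL huvL (m1.restrict _)
  obtain ⟨q1, q2⟩ := plgW hg (f := fun w => (ph w : ℂ) + ZS S w) huL huvL
    (m3.mono_measure (Measure.restrict_mono hsub le_rfl))
  set E1 : ℝ → ℂ := tr (fun w => (De θ w : ℂ) - Mo S L w) (u * L) (v * L) with hE1
  set E3 : ℝ → ℂ := tr (fun w => (ph w : ℂ) + ZS S w) (u * L) (v * L) with hE3
  set c : ℝ := L * (1 / (2 * Real.pi)) with hc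
  have hcp : 0 ≤ c := by positivity
  have hc2 : √c ^ 2 = c := Real.sq_sqrt hcp
  set F : ℝ → ℂ := fun t => (√c : ℂ) * WT θ a b u v L t with hF
  set A : ℝ → ℂ := fun t => (√c : ℂ) * Mw S a b u v L t with hA
  have mF : MemLp F 2 (volume.restrict (Ioc α β)) := (mlp_c (WT_cont θ a b hL hu huv) _ _).const_mul _
  have mA : MemLp A 2 (volume.restrict (Ioc α β)) := (mlp_c (Mw_cont hg S a b hu huv L) _ _).const_mul _
  have h1 := tri mF mA
  have sqc : ∀ z : ℂ, ‖(√c : ℂ) * z‖ ^ 2 = c * ‖z‖ ^ 2 := by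
    intro z
    rw [norm_mul, mul_pow, Complex.norm_real, Real.norm_eq_abs, sq_abs, hc2]
  have eF : ∫ t in Ioc α β, ‖F t‖ ^ 2 =
      L * (1 / (2 * Real.pi) * ∫ t in α..β, ‖WT θ a b u v L t‖ ^ 2) := by
    rw [intervalIntegral.integral_of_le hab.le, ← mul_assoc, ← integral_const_mul]
    refine setIntegral_congr_fun measurableSet_Ioc fun t _ => ?_
    exact sqc _
  have eA : ∫ t in Ioc α β, ‖A t‖ ^ 2 = L * (1 / (2 * Real.pi) * ∫ t in α..β, ‖Mw S a b u v L t‖ ^ 2) := by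
    rw [intervalIntegral.integral_of_le hab.le, ← mul_assoc, ← integral_const_mul]
    refine setIntegral_congr_fun measurableSet_Ioc fun t _ => ?_
    exact sqc _
  rw [eF, eA] at h1
  refine h1.trans (Real.sqrt_le_sqrt ?_)
  have e4 : ∀ t, ‖F t - A t‖ ^ 2 ≤ 2 * a ^ 2 * c * ‖E1 t‖ ^ 2 + 2 * b ^ 2 * c / L ^ 2 * ‖E3 t‖ ^ 2 := by
    intro t
    have e5 : F t - A t = (√c : ℂ) * ((a : ℂ) * E1 t - (b : ℂ) / L * E3 t) := by
      show (√c : ℂ) * WT θ a b u v L t - (√c : ℂ) * Mw S a b u v L t = _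
      rw [WT_eq S θ a b hL hu huv hv]
      ring
    rw [e5, sqc]
    have n1 : ‖(a : ℂ) * E1 t‖ ^ 2 = a ^ 2 * ‖E1 t‖ ^ 2 := by
      rw [norm_mul, mul_pow, Complex.norm_real, Real.norm_eq_abs, sq_abs]
    have n2 : ‖(b : ℂ) / L * E3 t‖ ^ 2 = b ^ 2 / L ^ 2 * ‖E3 t‖ ^ 2 := by
      rw [norm_mul, norm_div, mul_pow, div_pow, Complex.norm_real, Complex.norm_real, Real.norm_eq_abs, Real.norm_eq_abs,
        sq_abs, sq_abs]
    have t0 := norm_sub_le ((a : ℂ) * E1 t) ((b : ℂ) / L * E3 t)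
    have t1 := norm_nonneg ((a : ℂ) * E1 t - (b : ℂ) / L * E3 t)
    have t2 : ‖(a : ℂ) * E1 t - (b : ℂ) / L * E3 t‖ ^ 2 ≤ 2 * (a ^ 2 * ‖E1 t‖ ^ 2) + 2 * (b ^ 2 / L ^ 2 * ‖E3 t‖ ^ 2) := by
      rw [← n1, ← n2]
      nlinarith [sq_nonneg (‖(a : ℂ) * E1 t‖ - ‖(b : ℂ) / L * E3 t‖)]
    calc _ ≤ c * (2 * (a ^ 2 * ‖E1 t‖ ^ 2) + 2 * (b ^ 2 / L ^ 2 * ‖E3 t‖ ^ 2)) := mul_le_mul_of_nonneg_left t2 hcp
      _ = _ := by ring
  have i1 : IntegrableOn (fun t => 2 * a ^ 2 * c * ‖E1 t‖ ^ 2) (Ioc α β) := (p1.const_mul _).integrableOn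
  have i2 : IntegrableOn (fun t => 2 * b ^ 2 * c / L ^ 2 * ‖E3 t‖ ^ 2) (Ioc α β) := (q1.const_mul _).integrableOn
  have hmono := setIntegral_mono_on (isq (mF.sub mA)) (i1.add i2) measurableSet_Ioc fun t _ => e4 t
  refine hmono.trans ?_
  simp only [Pi.add_apply]
  rw [integral_add i1 i2, integral_const_mul, integral_const_mul]
  have k1 : ∫ t in Ioc α β, ‖E1 t‖ ^ 2 ≤ ∫ t : ℝ, ‖E1 t‖ ^ 2 :=
    setIntegral_le_integral p1 (ae_of_all _ fun t => by positivity)
  have k2 : ∫ t in Ioc α β, ‖E3 t‖ ^ 2 ≤ ∫ t : ℝ, ‖E3 t‖ ^ 2 :=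
    setIntegral_le_integral q1 (ae_of_all _ fun t => by positivity)
  have k3 := mul_le_mul_of_nonneg_left k1 (show 0 ≤ 2 * a ^ 2 * c by positivity)
  have k4 := mul_le_mul_of_nonneg_left k2 (show 0 ≤ 2 * b ^ 2 * c / L ^ 2 by positivity)
  have k5 : 2 * a ^ 2 * c * ∫ t : ℝ, ‖E1 t‖ ^ 2 =
      2 * a ^ 2 * (L * ∫ w in (u * L)..(v * L), ‖(De θ w : ℂ) - Mo S L w‖ ^ 2 * Real.exp (-w)) := by
    rw [p2, hc]; ring
  have k6 : 2 * b ^ 2 * c / L ^ 2 * ∫ t : ℝ, ‖E3 t‖ ^ 2 =
      2 * b ^ 2 * (1 / L * ∫ w in (u * L)..(v * L), ‖(ph w : ℂ) + ZS S w‖ ^ 2 * Real.exp (-w)) := by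
    rw [q2, hc]
    field_simp
  have k7 : ∫ w in (u * L)..(v * L), ‖(De θ w : ℂ) - Mo S L w‖ ^ 2 * Real.exp (-w) ≤
      ∫ w : ℝ, ‖(De θ w : ℂ) - Mo S L w‖ ^ 2 * Real.exp (-w) := by
    rw [intervalIntegral.integral_of_le huvL]
    exact setIntegral_le_integral hi (ae_of_all _ fun w => by positivity)
  have k8 : ∫ w in (u * L)..(v * L), ‖(ph w : ℂ) + ZS S w‖ ^ 2 * Real.exp (-w) ≤
      ∫ w in (0 : ℝ)..L, ‖(ph w : ℂ) + ZS S w‖ ^ 2 * Real.exp (-w) := by
    rw [intervalIntegral.integral_of_le huvL, intervalIntegral.integral_of_le hL.le]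
    exact setIntegral_mono_set m3' (ae_of_all _ fun w => by positivity) hsub.eventuallyLE
  have k9 := mul_le_mul_of_nonneg_left (mul_le_mul_of_nonneg_left k7 hL.le) (show 0 ≤ 2 * a ^ 2 by positivity)
  have k10 := mul_le_mul_of_nonneg_left (mul_le_mul_of_nonneg_left k8 (show 0 ≤ 1 / L by positivity))
    (show 0 ≤ 2 * b ^ 2 by positivity)
  linarith

/-- **JOB PHS** -/
theorem t_PHS (h1 : S_STR) (h3 : S_CR4) (hg : S_PLG) (h5 : S_LEG) (hs : Pool.Agent.Q286.BD.S_sum2) : S_PHS := by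
  intro hRH Lf af hF a b u v α β hu huv hv hab hα hβ
  have hB : Summable (fun g : Go => (mz (cl g) : ℝ) ^ 2 / (1 / 4 + (g : ℝ) ^ 2)) :=
    Pool.Agent.Q286.BD.summ_line hRH hs
  have hX : Summable (fun g : Go => zg a b u v α β g) :=
    Summable.of_nonneg_of_le (fun g => zg_nonneg a b huv α β g)
      (fun g => (zg_le a b huv α β g).trans (xg_le h5 a b hu huv hv g)) (hB.mul_left _)
  show Tendsto _ _ (𝓝 (∑' g : Go, zg a b u v α β g))
  refine lim_of ?_ (tsum_nonneg fun g => zg_nonneg a b huv α β g) ?_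
  · filter_upwards [hF.tend.eventually_ge_atTop 0] with j hj
    have : 0 ≤ ∫ t in α..β, ‖WT (af j) a b u v (Lf j) t‖ ^ 2 :=
      intervalIntegral.integral_nonneg hab.le fun w _ => by positivity
    positivity
  intro ε hε
  set ε1 : ℝ := ε / (2 * a ^ 2 + 2 * b ^ 2 + 1) with hε1
  have hε1p : 0 < ε1 := by positivity
  have hεe : 2 * a ^ 2 * ε1 + 2 * b ^ 2 * ε1 ≤ ε := by
    have : (2 * a ^ 2 + 2 * b ^ 2 + 1) * ε1 = ε := by rw [hε1]; field_simp
    nlinarith
  obtain ⟨S0, hS0, hCR⟩ := h3 hRH ε1 hε1p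
  have t1 : ∀ᶠ T : Finset Go in atTop, |∑ g ∈ T, zg a b u v α β g - ∑' g : Go, zg a b u v α β g| ≤ ε := by
    have := Metric.tendsto_nhds.mp hX.hasSum ε hε
    filter_upwards [this] with T hT
    rw [Real.dist_eq] at hT
    exact hT.le
  have t2 : ∀ᶠ T : Finset Go in atTop, BB - ε1 < ∑ g ∈ T, (mz (cl g) : ℝ) ^ 2 / (1 / 4 + (g : ℝ) ^ 2) :=
    hB.hasSum.eventually_const_lt (by unfold BB; linarith)
  have t3 : ∀ᶠ T : Finset Go in atTop, S0.subtype (· ∈ Go) ≤ T := eventually_ge_atTop _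
  obtain ⟨T, ⟨hT1, hT2⟩, hT3⟩ := ((t1.and t2).and t3).exists
  set S : Finset ℝ := T.map (Function.Embedding.subtype _) with hSd
  have hSz : ∀ g ∈ S, riemannZeta (cl g) = 0 := by
    intro g hg
    rw [hSd, Finset.mem_map] at hg
    obtain ⟨g', -, rfl⟩ := hg
    exact g'.2
  have hSS : S0 ⊆ S := by
    intro g hg
    rw [hSd, Finset.mem_map]
    exact ⟨⟨g, hS0 g hg⟩, hT3 (by rw [Finset.mem_subtype]; exact hg), rfl⟩
  have hBS : BS S = ∑ g ∈ T, (mz (cl g) : ℝ) ^ 2 / (1 / 4 + (g : ℝ) ^ 2) := by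
    unfold BS
    rw [hSd, Finset.sum_map]
    rfl
  have hXS : ∑ g ∈ S, zg a b u v α β g = ∑ g ∈ T, zg a b u v α β g := by
    rw [hSd, Finset.sum_map]
    rfl
  refine ⟨fun j => Lf j * (1 / (2 * Real.pi) * ∫ t in α..β, ‖Mw S a b u v (Lf j) t‖ ^ 2),
    ∑ g ∈ S, zg a b u v α β g, Finset.sum_nonneg fun g _ => zg_nonneg a b huv α β g, ?_, ?_, ?_⟩
  · exact (modelP hg a b hu huv hab S (fun h => hα (hSz _ h)) (fun h => hβ (hSz _ h))).comp hF.tend
  · rw [hXS]; exact hT1
  · have r1 := rem h1 S hSz hF (η := ε1) (by rw [hBS]; linarith)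
    have r2 := hF.tend.eventually (hCR S hSS hSz)
    filter_upwards [r1, r2] with j j1 j2
    obtain ⟨j1, j3, j4⟩ := j1
    refine (oneP hg a b (by linarith) (af j) S hu huv hv hab j3).trans (Real.sqrt_le_sqrt ?_)
    have k1 := mul_le_mul_of_nonneg_left j4 (show (0 : ℝ) ≤ 2 * a ^ 2 by positivity)
    have k2 := mul_le_mul_of_nonneg_left j2 (show (0 : ℝ) ≤ 2 * b ^ 2 by positivity)
    linarith

end Pool.Agent.Q149.OE
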